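import Pool.Agent.Y748.SR.Stm2

/-!
Project SR of helper748, job SR-ML: pair sums from the pair correlation.
-/

open Finset Filter Topology MeasureTheory

set_option autoImplicit false

namespace Pool.Agent.Y948.SRML

open Pool.Agent.Y748.SR

/-- finitely many points below every bound -/
theorem fin_le {u : ℕ → ℝ} (hu : Sq u) (T : ℝ) : {n : ℕ | 1 ≤ n ∧ u n ≤ T}.Finite := by
  have h1 : ∀ᶠ n : ℕ in atTop, (1/2 : ℝ) < u n / n :=
    hu.lim.eventually (lt_mem_nhds (by norm_num))
  obtain ⟨n0, hn0⟩ := eventually_atTop.1 h1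
  refine (Set.finite_Iic (max n0 ⌈2 * |T|⌉₊)).subset ?_
  rintro n ⟨hn1, hnT⟩
  by_contra hc
  simp only [Set.mem_Iic, not_le] at hc
  have h2 := hn0 n (le_of_lt (lt_of_le_of_lt (le_max_left _ _) hc))
  have h3 : (⌈2*|T|⌉₊ : ℝ) < n := by exact_mod_cast lt_of_le_of_lt (le_max_right _ _) hc
  have h4 : 2*|T| ≤ (⌈2*|T|⌉₊ : ℝ) := Nat.le_ceil _
  have hn : (0:ℝ) < n := by exact_mod_cast hn1
  rw [lt_div_iff₀ hn] at h2
  have := le_abs_self T
  linarith

/-- the indices of the points at most `T` -/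
noncomputable def ix {u : ℕ → ℝ} (hu : Sq u) (T : ℝ) : Finset ℕ := (fin_le hu T).toFinset

theorem mem_ix {u : ℕ → ℝ} (hu : Sq u) (T : ℝ) (n : ℕ) : n ∈ ix hu T ↔ 1 ≤ n ∧ u n ≤ T := by
  simp [ix]

/-- the pairs of distinct indices of points at most `T` -/
noncomputable def PP {u : ℕ → ℝ} (hu : Sq u) (T : ℝ) : Finset (ℕ × ℕ) :=
  ((ix hu T) ×ˢ (ix hu T)).filter fun p => p.1 ≠ p.2

theorem mem_PP {u : ℕ → ℝ} (hu : Sq u) (T : ℝ) (p : ℕ × ℕ) :
    p ∈ PP hu T ↔ (1 ≤ p.1 ∧ u p.1 ≤ T) ∧ (1 ≤ p.2 ∧ u p.2 ≤ T) ∧ p.1 ≠ p.2 := by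
  simp [PP, mem_ix, and_assoc]

theorem pos_u {u : ℕ → ℝ} (hu : Sq u) (n : ℕ) (hn : 1 ≤ n) : 0 < u n := by
  induction n, hn using Nat.le_induction with
  | base => exact hu.pos
  | succ n hn ih => exact lt_of_lt_of_le ih (hu.mono n hn)

/-- the length of the intersection of three intervals -/
noncomputable def G (N c ε s t : ℝ) : ℝ :=
  max (min (min N (s - c)) t - max (max 0 (s - c - ε)) (t - ε)) 0

/-- the hat function -/
noncomputable def hat (ε c v : ℝ) : ℝ := max (ε - |v - c|) 0

theorem G_nonneg (N c ε s t : ℝ) : 0 ≤ G N c ε s t := le_max_right _ _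

theorem G_le (N c ε s t : ℝ) (he : 0 ≤ ε) : G N c ε s t ≤ ε := by
  unfold G
  refine max_le ?_ he
  have h1 : min (min N (s - c)) t ≤ t := min_le_right _ _
  have h2 : t - ε ≤ max (max 0 (s - c - ε)) (t - ε) := le_max_right _ _
  linarith

theorem hat_nonneg (ε c v : ℝ) : 0 ≤ hat ε c v := le_max_right _ _

theorem hat_le (ε c v : ℝ) (he : 0 ≤ ε) : hat ε c v ≤ ε := by
  unfold hat
  refine max_le ?_ he
  have := abs_nonneg (v - c)
  linarith

theorem G_eq (N c ε s t : ℝ) (h1 : ε ≤ t) (h2 : t ≤ N) : G N c ε s t = hat ε c (s - t) := by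
  unfold G hat
  congr 1
  rcases le_total (s - c) t with h | h
  · have e1 : min (min N (s - c)) t = s - c := by
      rw [min_eq_right (show s - c ≤ N by linarith), min_eq_left h]
    have e2 : max (max 0 (s - c - ε)) (t - ε) = t - ε := by
      rw [max_eq_right]
      exact max_le (by linarith) (by linarith)
    rw [e1, e2, abs_of_nonpos (by linarith)]
    ring
  · have e1 : min (min N (s - c)) t = t := by
      rw [min_eq_right]
      exact le_min h2 h
    have e2 : max (max 0 (s - c - ε)) (t - ε) = s - c - ε := by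
      rw [max_eq_right (by linarith : (0:ℝ) ≤ s - c - ε), max_eq_left (by linarith)]
    rw [e1, e2, abs_of_nonneg (by linarith)]
    ring

theorem G_zero (N c ε s t : ℝ) (h : ε ≤ |s - t - c|) : G N c ε s t = 0 := by
  unfold G
  refine max_eq_right ?_
  have a1 : min (min N (s - c)) t ≤ t := min_le_right _ _
  have a2 : min (min N (s - c)) t ≤ s - c := (min_le_left _ _).trans (min_le_right _ _)
  have a3 : t - ε ≤ max (max 0 (s - c - ε)) (t - ε) := le_max_right _ _
  have a4 : s - c - ε ≤ max (max 0 (s - c - ε)) (t - ε) :=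
    (le_max_right _ _).trans (le_max_left _ _)
  rcases le_abs'.1 h with h | h <;> linarith

theorem hat_zero (ε c v : ℝ) (h : ε ≤ |v - c|) : hat ε c v = 0 := by
  unfold hat
  exact max_eq_right (by linarith)

theorem ind_eq (c ε s t : ℝ) :
    (fun x : ℝ => (if s - x ∈ Set.Icc c (c + ε) ∧ t - x ∈ Set.Icc 0 ε then (1:ℝ) else 0)) =
      (Set.Icc (max (s - c - ε) (t - ε)) (min (s - c) t)).indicator (fun _ => (1:ℝ)) := by
  funext x
  have hiff : (s - x ∈ Set.Icc c (c + ε) ∧ t - x ∈ Set.Icc 0 ε) ↔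
      x ∈ Set.Icc (max (s - c - ε) (t - ε)) (min (s - c) t) := by
    simp only [Set.mem_Icc, max_le_iff, le_min_iff]
    constructor
    · rintro ⟨⟨h1, h2⟩, h3, h4⟩
      refine ⟨⟨?_, ?_⟩, ?_, ?_⟩ <;> linarith
    · rintro ⟨⟨h1, h2⟩, h3, h4⟩
      refine ⟨⟨?_, ?_⟩, ?_, ?_⟩ <;> linarith
  by_cases h : x ∈ Set.Icc (max (s - c - ε) (t - ε)) (min (s - c) t)
  · rw [Set.indicator_of_mem h, if_pos (hiff.2 h)]
  · rw [Set.indicator_of_notMem h, if_neg (fun h' => h (hiff.1 h'))]

/-- one term -/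
theorem int_term (N c ε s t : ℝ) (hN : 0 ≤ N) :
    ∫ x in (0:ℝ)..N, (if s - x ∈ Set.Icc c (c + ε) ∧ t - x ∈ Set.Icc 0 ε then (1:ℝ) else 0) =
      G N c ε s t := by
  have e1 := ind_eq c ε s t
  rw [intervalIntegral.integral_of_le hN, ← integral_Icc_eq_integral_Ioc, e1,
    setIntegral_indicator measurableSet_Icc, Set.Icc_inter_Icc]
  simp only [integral_const, smul_eq_mul, mul_one, measureReal_restrict_apply_univ,
    Real.volume_real_Icc]
  unfold G
  congr 2
  · rw [min_assoc]
  · rw [max_assoc]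

theorem int_term_int (N c ε s t : ℝ) :
    IntervalIntegrable (fun x : ℝ =>
      (if s - x ∈ Set.Icc c (c + ε) ∧ t - x ∈ Set.Icc 0 ε then (1:ℝ) else 0)) volume 0 N := by
  have e1 := ind_eq c ε s t
  rw [e1]
  have : Integrable ((Set.Icc (max (s - c - ε) (t - ε)) (min (s - c) t)).indicator
      (fun _ => (1:ℝ))) volume := by
    rw [integrable_indicator_iff measurableSet_Icc]
    exact integrableOn_const (by simp [Real.volume_Icc])
  exact this.intervalIntegrable

/-- the correlation of a box as a sum over pairs -/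
theorem corr_eq {u : ℕ → ℝ} (hu : Sq u) (N : ℕ) (c ε B : ℝ) (hB : c + ε ≤ B) (hB' : ε ≤ B) :
    corr u 2 N ![c, 0] ![c + ε, ε] =
      (1 / N : ℝ) * ∑ p ∈ PP hu (N + B), G N c ε (u p.1) (u p.2) := by
  unfold corr
  congr 1
  have hN : (0:ℝ) ≤ N := Nat.cast_nonneg N
  have key : ∀ x ∈ Set.uIcc (0:ℝ) N, ({n : Fin 2 → ℕ | Function.Injective n ∧
      ∀ i, 1 ≤ n i ∧ u (n i) - x ∈ Set.Icc ((![c, 0] : Fin 2 → ℝ) i)
        ((![c + ε, ε] : Fin 2 → ℝ) i)}.ncard : ℝ) =
      ∑ p ∈ PP hu (N + B), (if u p.1 - x ∈ Set.Icc c (c + ε) ∧ u p.2 - x ∈ Set.Icc 0 ε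
        then (1:ℝ) else 0) := by
    intro x hx
    rw [Set.uIcc_of_le hN] at hx
    have e : {n : Fin 2 → ℕ | Function.Injective n ∧
      ∀ i, 1 ≤ n i ∧ u (n i) - x ∈ Set.Icc ((![c, 0] : Fin 2 → ℝ) i)
        ((![c + ε, ε] : Fin 2 → ℝ) i)} = (fun p : ℕ × ℕ => (![p.1, p.2] : Fin 2 → ℕ)) ''
        (((PP hu (N + B)).filter fun p => u p.1 - x ∈ Set.Icc c (c + ε) ∧
          u p.2 - x ∈ Set.Icc 0 ε : Finset (ℕ × ℕ)) : Set (ℕ × ℕ)) := by
      ext n
      simp only [Set.mem_ofPred_eq, Set.mem_image, Finset.coe_filter, mem_PP, Fin.forall_fin_two,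
        Matrix.cons_val_zero, Matrix.cons_val_one]
      constructor
      · rintro ⟨h1, ⟨h2, h3⟩, h4, h5⟩
        refine ⟨(n 0, n 1), ⟨⟨⟨h2, ?_⟩, ⟨h4, ?_⟩, ?_⟩, h3, h5⟩, ?_⟩
        · have := h3.2
          simp only
          linarith [hx.2]
        · have := h5.2
          simp only
          linarith [hx.2]
        · intro h
          exact absurd (h1 h) (by decide)
        · funext i
          fin_cases i <;> rfl
      · rintro ⟨p, ⟨⟨⟨h1, h2⟩, ⟨h3, h4⟩, h5⟩, h6, h7⟩, rfl⟩
        refine ⟨?_, ⟨h1, h6⟩, h3, h7⟩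
        intro i j hij
        fin_cases i <;> fin_cases j <;> simp at hij ⊢
        · exact absurd hij h5
        · exact absurd hij.symm h5
    rw [e, Set.ncard_image_of_injective, Set.ncard_coe_finset, Finset.natCast_card_filter]
    intro p q hpq
    have h0 := congrFun hpq 0
    have h1 := congrFun hpq 1
    simp at h0 h1
    exact Prod.ext h0 h1
  rw [intervalIntegral.integral_congr key, intervalIntegral.integral_finsetSum]
  · exact Finset.sum_congr rfl fun p _ => int_term _ _ _ _ _ hN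
  · exact fun p _ => int_term_int _ _ _ _ _

/-- the indices of the points in `[a, b]` -/
noncomputable def iy {u : ℕ → ℝ} (hu : Sq u) (a b : ℝ) : Finset ℕ :=
  (ix hu b).filter fun n => a ≤ u n

theorem mem_iy {u : ℕ → ℝ} (hu : Sq u) (a b : ℝ) (n : ℕ) :
    n ∈ iy hu a b ↔ 1 ≤ n ∧ a ≤ u n ∧ u n ≤ b := by
  simp [iy, mem_ix]
  tauto

theorem iy_card {u : ℕ → ℝ} (hu : Sq u) : ∃ C : ℝ, 0 ≤ C ∧ ∀ (x : ℝ), 0 ≤ x → ∀ m : ℕ,
    ((iy hu x (x + m)).card : ℝ) ≤ (m + 1) * (C * Real.log (x + m + 3)) := by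
  obtain ⟨C, hC⟩ := hu.loc
  refine ⟨|C|, abs_nonneg C, ?_⟩
  have h1 : ∀ x : ℝ, 0 ≤ x → ((iy hu x (x + 1)).card : ℝ) ≤ |C| * Real.log (x + 2) := by
    intro x hx
    have e : ({n : ℕ | 1 ≤ n ∧ u n ∈ Set.Icc x (x + 1)}) = ((iy hu x (x + 1) : Finset ℕ) : Set ℕ) := by
      ext n
      simp [mem_iy]
    have := hC x hx
    rw [e, Set.ncard_coe_finset] at this
    refine this.trans (mul_le_mul_of_nonneg_right (le_abs_self C) (Real.log_nonneg (by linarith)))
  intro x hx m
  induction m with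
  | zero =>
    have h2 := h1 x hx
    have h3 : (iy hu x (x + (0:ℕ))).card ≤ (iy hu x (x + 1)).card := by
      refine Finset.card_le_card fun n hn => ?_
      rw [mem_iy] at hn ⊢
      refine ⟨hn.1, hn.2.1, hn.2.2.trans ?_⟩
      push_cast
      linarith
    have h4 : ((iy hu x (x + (0:ℕ))).card : ℝ) ≤ ((iy hu x (x + 1)).card : ℝ) := by
      exact_mod_cast h3
    refine h4.trans (h2.trans ?_)
    push_cast
    rw [zero_add, one_mul]
    refine mul_le_mul_of_nonneg_left (Real.log_le_log (by linarith) (by linarith)) (abs_nonneg C)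
  | succ m ih =>
    have h2 := h1 (x + m) (by positivity)
    have h3 : (iy hu x (x + (m + 1 : ℕ))).card ≤
        (iy hu x (x + m)).card + (iy hu (x + m) (x + m + 1)).card := by
      refine le_trans (Finset.card_le_card fun n hn => ?_) (Finset.card_union_le _ _)
      rw [Finset.mem_union, mem_iy, mem_iy]
      rw [mem_iy] at hn
      push_cast at hn
      rcases le_total (u n) (x + m) with h | h
      · exact Or.inl ⟨hn.1, hn.2.1, h⟩
      · exact Or.inr ⟨hn.1, h, by linarith [hn.2.2]⟩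
    have h4 : ((iy hu x (x + (m + 1 : ℕ))).card : ℝ) ≤
        ((iy hu x (x + m)).card : ℝ) + ((iy hu (x + m) (x + m + 1)).card : ℝ) := by
      exact_mod_cast h3
    have h5 : Real.log (x + m + 3) ≤ Real.log (x + (m + 1 : ℕ) + 3) := by
      refine Real.log_le_log (by positivity) ?_
      push_cast
      linarith
    have h6 : Real.log (x + m + 2) ≤ Real.log (x + (m + 1 : ℕ) + 3) := by
      refine Real.log_le_log (by positivity) ?_
      push_cast
      linarith
    have h7 := mul_le_mul_of_nonneg_left h5 (abs_nonneg C)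
    have h8 := mul_le_mul_of_nonneg_left h6 (abs_nonneg C)
    have h9 := mul_le_mul_of_nonneg_left h7 (show (0:ℝ) ≤ m + 1 by positivity)
    calc ((iy hu x (x + (m + 1 : ℕ))).card : ℝ)
        ≤ (m + 1) * (|C| * Real.log (x + m + 3)) + |C| * Real.log (x + m + 2) :=
          h4.trans (add_le_add ih h2)
      _ ≤ (m + 1) * (|C| * Real.log (x + (m + 1 : ℕ) + 3)) +
          |C| * Real.log (x + (m + 1 : ℕ) + 3) := add_le_add h9 h8
      _ = ((m + 1 : ℕ) + 1) * (|C| * Real.log (x + (m + 1 : ℕ) + 3)) := by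
          push_cast
          ring

/-- comparison of the two sums -/
theorem diff_le {u : ℕ → ℝ} (hu : Sq u) (N : ℕ) (c ε : ℝ) (he : 0 < ε) (m : ℕ)
    (hm : |c| + 2 * ε ≤ m) (hmN : m ≤ N) :
    |∑ p ∈ PP hu (N + m), G N c ε (u p.1) (u p.2) - ∑ p ∈ PP hu N, hat ε c (u p.1 - u p.2)| ≤
      ε * ((PP hu m).card : ℝ) +
        ε * ((iy hu (N - m) (N - m + (2 * m : ℕ))).card : ℝ) ^ 2 := by
  classical
  have hc := neg_abs_le c
  have hc' := le_abs_self c
  have hmR : (m : ℝ) ≤ N := by exact_mod_cast hmN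
  have hm0 : (0:ℝ) ≤ m := Nat.cast_nonneg m
  have hsub : PP hu N ⊆ PP hu (N + m) := by
    intro p hp
    rw [mem_PP] at hp ⊢
    exact ⟨⟨hp.1.1, by linarith [hp.1.2]⟩, ⟨hp.2.1.1, by linarith [hp.2.1.2]⟩, hp.2.2⟩
  rw [← Finset.sum_sdiff hsub, add_sub_assoc, ← Finset.sum_sub_distrib]
  -- first part
  have h1 : |∑ p ∈ PP hu N, (G N c ε (u p.1) (u p.2) - hat ε c (u p.1 - u p.2))| ≤
      ε * ((PP hu m).card : ℝ) := by
    have e1 : ∑ p ∈ PP hu N, (G N c ε (u p.1) (u p.2) - hat ε c (u p.1 - u p.2)) =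
        ∑ p ∈ PP hu m, (G N c ε (u p.1) (u p.2) - hat ε c (u p.1 - u p.2)) := by
      symm
      refine Finset.sum_subset ?_ ?_
      · intro p hp
        rw [mem_PP] at hp ⊢
        exact ⟨⟨hp.1.1, by linarith [hp.1.2]⟩, ⟨hp.2.1.1, by linarith [hp.2.1.2]⟩, hp.2.2⟩
      · intro p hp hpn
        rw [mem_PP] at hp hpn
        by_cases ht : ε ≤ u p.2
        · rw [G_eq _ _ _ _ _ ht hp.2.1.2, sub_self]
        · push Not at ht
          have hs : (m : ℝ) < u p.1 := by
            by_contra hs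
            push Not at hs
            exact hpn ⟨⟨hp.1.1, hs⟩, ⟨hp.2.1.1, by linarith [abs_nonneg c]⟩, hp.2.2⟩
          have hab : ε ≤ |u p.1 - u p.2 - c| := by
            refine le_trans ?_ (le_abs_self _)
            linarith
          rw [G_zero _ _ _ _ _ hab, hat_zero _ _ _ hab, sub_self]
    rw [e1]
    refine (Finset.abs_sum_le_sum_abs _ _).trans ?_
    refine (Finset.sum_le_card_nsmul _ _ ε ?_).trans (le_of_eq ?_)
    · intro p _
      have a1 := G_nonneg N c ε (u p.1) (u p.2)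
      have a2 := G_le N c ε (u p.1) (u p.2) he.le
      have a3 := hat_nonneg ε c (u p.1 - u p.2)
      have a4 := hat_le ε c (u p.1 - u p.2) he.le
      rw [abs_le]
      constructor <;> linarith
    · rw [nsmul_eq_mul, mul_comm]
  have h2 : |∑ p ∈ PP hu (N + m) \ PP hu N, G N c ε (u p.1) (u p.2)| ≤
      ε * ((iy hu (N - m) (N - m + (2 * m : ℕ))).card : ℝ) ^ 2 := by
    set J := iy hu (N - m) (N - m + (2 * m : ℕ)) with hJ
    have e2 : ∑ p ∈ PP hu (N + m) \ PP hu N, G N c ε (u p.1) (u p.2) =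
        ∑ p ∈ (PP hu (N + m) \ PP hu N) ∩ (J ×ˢ J), G N c ε (u p.1) (u p.2) := by
      symm
      refine Finset.sum_subset Finset.inter_subset_left ?_
      intro p hp hpn
      rw [Finset.mem_sdiff, mem_PP, mem_PP] at hp
      apply G_zero
      by_contra hlt
      push Not at hlt
      rw [abs_lt] at hlt
      apply hpn
      rw [Finset.mem_inter, Finset.mem_sdiff, mem_PP, mem_PP, Finset.mem_product, hJ, mem_iy,
        mem_iy]
      refine ⟨hp, ?_⟩
      have hbig : (N : ℝ) < u p.1 ∨ (N : ℝ) < u p.2 := by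
        by_contra hno
        push Not at hno
        exact hp.2 ⟨⟨hp.1.1.1, hno.1⟩, ⟨hp.1.2.1.1, hno.2⟩, hp.1.2.2⟩
      have b1 : (N : ℝ) - m ≤ u p.1 := by
        rcases hbig with h | h
        · linarith
        · linarith
      have b2 : (N : ℝ) - m ≤ u p.2 := by
        rcases hbig with h | h
        · linarith
        · linarith
      push_cast
      exact ⟨⟨hp.1.1.1, b1, by linarith [hp.1.1.2]⟩, ⟨hp.1.2.1.1, b2, by linarith [hp.1.2.1.2]⟩⟩
    rw [e2]
    refine (Finset.abs_sum_le_sum_abs _ _).trans ?_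
    refine (Finset.sum_le_card_nsmul _ _ ε ?_).trans ?_
    · intro p _
      rw [abs_of_nonneg (G_nonneg _ _ _ _ _)]
      exact G_le _ _ _ _ _ he.le
    · rw [nsmul_eq_mul, mul_comm]
      refine mul_le_mul_of_nonneg_left ?_ he.le
      have : ((PP hu (N + m) \ PP hu N) ∩ (J ×ˢ J)).card ≤ J.card ^ 2 := by
        refine (Finset.card_le_card Finset.inter_subset_right).trans ?_
        rw [Finset.card_product, sq]
      exact_mod_cast this
  calc _ ≤ |∑ p ∈ PP hu (N + m) \ PP hu N, G N c ε (u p.1) (u p.2)| +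
        |∑ p ∈ PP hu N, (G N c ε (u p.1) (u p.2) - hat ε c (u p.1 - u p.2))| := abs_add_le _ _
    _ ≤ _ := by linarith

theorem log_tend (m : ℕ) :
    Tendsto (fun N : ℕ => Real.log (N + m + 3) ^ 2 * (1 / N : ℝ)) atTop (𝓝 0) := by
  have h1 : Tendsto (fun x : ℝ => Real.log x ^ 2 / x) atTop (𝓝 0) := by
    have := (Real.isLittleO_pow_log_id_atTop (n := 2)).tendsto_div_nhds_zero
    simpa using this
  have hcast : Tendsto (fun N : ℕ => (N : ℝ)) atTop atTop := tendsto_natCast_atTop_atTop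
  have h2 : Tendsto (fun N : ℕ => (N : ℝ) + m + 3) atTop atTop := by
    have := tendsto_atTop_add_const_right atTop ((m : ℝ) + 3) hcast
    refine this.congr fun N => by ring
  have h3 := h1.comp h2
  have h4 : Tendsto (fun N : ℕ => 1 + ((m : ℝ) + 3) * (1 / (N : ℝ))) atTop (𝓝 (1 + (m + 3) * 0)) :=
    ((tendsto_one_div_atTop_nhds_zero_nat).const_mul _).const_add _
  have h5 := h3.mul h4
  rw [zero_mul] at h5
  refine h5.congr' ?_
  filter_upwards [eventually_gt_atTop 0] with N hN
  have hN' : (0:ℝ) < N := by exact_mod_cast hN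
  have hy : (0:ℝ) < (N : ℝ) + m + 3 := by positivity
  simp only [Function.comp]
  field_simp
  ring

/-- the box integral is the integral against the hat function -/
theorem box_int (h : ℝ → ℝ) (hc : Continuous h) (c ε : ℝ) (he : 0 < ε) :
    ∫ x in Set.Icc (![c, 0] : Fin 2 → ℝ) ![c + ε, ε], h (x 0 - x 1) =
      ∫ v, hat ε c v * h v := by
  set H : ℝ → ℝ := fun t => ∫ v in (0:ℝ)..t, h v with hH
  have hHd : ∀ t, HasDerivAt H (h t) t := fun t =>
    intervalIntegral.integral_hasDerivAt_right (hc.intervalIntegrable _ _)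
      (hc.stronglyMeasurableAtFilter _ _) hc.continuousAt
  have hHc : Continuous H := continuous_iff_continuousAt.2 fun t => (hHd t).continuousAt
  -- left
  have hL : ∫ x in Set.Icc (![c, 0] : Fin 2 → ℝ) ![c + ε, ε], h (x 0 - x 1) =
      (∫ t in c..(c + ε), H t) - ∫ t in (c - ε)..c, H t := by
    have e1 : Set.Icc (![c, 0] : Fin 2 → ℝ) ![c + ε, ε] =
        (MeasurableEquiv.finTwoArrow (α := ℝ)) ⁻¹' (Set.Icc c (c + ε) ×ˢ Set.Icc 0 ε) := by
      ext x
      simp only [Set.mem_Icc, Pi.le_def, Fin.forall_fin_two, Matrix.cons_val_zero,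
        Matrix.cons_val_one, Set.mem_preimage, Set.mem_prod, MeasurableEquiv.finTwoArrow_apply]
      tauto
    have e2 := (volume_preserving_finTwoArrow ℝ).setIntegral_preimage_emb
      (MeasurableEquiv.measurableEmbedding _) (fun p : ℝ × ℝ => h (p.1 - p.2))
      (Set.Icc c (c + ε) ×ˢ Set.Icc 0 ε)
    rw [e1]
    have e3 : ∫ x in (MeasurableEquiv.finTwoArrow (α := ℝ)) ⁻¹' (Set.Icc c (c + ε) ×ˢ Set.Icc 0 ε),
        h (x 0 - x 1) = ∫ y in (Set.Icc c (c + ε) ×ˢ Set.Icc 0 ε), h (y.1 - y.2) := by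
      rw [← e2]
      rfl
    rw [e3, Measure.volume_eq_prod, setIntegral_prod]
    · have e4 : ∀ x : ℝ, ∫ y in Set.Icc 0 ε, h (x - y) = H x - H (x - ε) := by
        intro x
        rw [integral_Icc_eq_integral_Ioc, ← intervalIntegral.integral_of_le he.le]
        rw [intervalIntegral.integral_comp_sub_left (fun t => h t) x]
        rw [hH]
        simp only [sub_zero]
        rw [intervalIntegral.integral_interval_sub_left]
        · exact hc.intervalIntegrable _ _
        · exact hc.intervalIntegrable _ _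
      simp only [e4]
      rw [integral_Icc_eq_integral_Ioc, ← intervalIntegral.integral_of_le (by linarith)]
      rw [intervalIntegral.integral_sub]
      · rw [intervalIntegral.integral_comp_sub_right (fun t => H t) ε]
        congr 2
        ring
      · exact hHc.intervalIntegrable _ _
      · exact (hHc.comp (continuous_id.sub continuous_const)).intervalIntegrable _ _
    · exact (hc.comp (continuous_fst.sub continuous_snd)).continuousOn.integrableOn_compact
        (isCompact_Icc.prod isCompact_Icc)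
  -- right
  have hR : ∫ v, hat ε c v * h v = ∫ v in (c - ε)..(c + ε), hat ε c v * h v := by
    rw [intervalIntegral.integral_of_le (by linarith)]
    rw [← integral_indicator measurableSet_Ioc]
    refine integral_congr_ae (Eventually.of_forall fun v => ?_)
    simp only
    by_cases hv : v ∈ Set.Ioc (c - ε) (c + ε)
    · rw [Set.indicator_of_mem hv]
    · rw [Set.indicator_of_notMem hv, hat_zero, zero_mul]
      rw [Set.mem_Ioc, not_and_or] at hv
      push Not at hv
      rcases hv with hv | hv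
      · exact le_trans (by linarith) (neg_le_abs _)
      · exact le_trans (by linarith) (le_abs_self _)
  have hatc : Continuous (hat ε c) := by
    unfold hat
    fun_prop
  have hI : ∀ a b, IntervalIntegrable (fun v => hat ε c v * h v) volume a b := fun a b =>
    (hatc.mul hc).intervalIntegrable a b
  have hR1 : ∫ v in (c - ε)..c, hat ε c v * h v = ε * H c - ∫ t in (c - ε)..c, H t := by
    have e1 : ∫ v in (c - ε)..c, hat ε c v * h v = ∫ v in (c - ε)..c, (ε + (v - c)) * h v := by
      refine intervalIntegral.integral_congr fun v hv => ?_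
      rw [Set.uIcc_of_le (by linarith)] at hv
      congr 1
      unfold hat
      rw [abs_of_nonpos (by linarith [hv.2]), max_eq_left (by linarith [hv.1])]
      ring
    rw [e1, intervalIntegral.integral_mul_deriv_eq_deriv_mul (u := fun v => ε + (v - c))
      (u' := fun _ => 1) (v := H) (v' := h)]
    · simp
    · intro x _
      exact ((hasDerivAt_id x).sub_const c).const_add ε
    · intro x _
      exact hHd x
    · exact continuous_const.intervalIntegrable _ _
    · exact hc.intervalIntegrable _ _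
  have hR2 : ∫ v in c..(c + ε), hat ε c v * h v = - (ε * H c) + ∫ t in c..(c + ε), H t := by
    have e1 : ∫ v in c..(c + ε), hat ε c v * h v = ∫ v in c..(c + ε), (ε - (v - c)) * h v := by
      refine intervalIntegral.integral_congr fun v hv => ?_
      rw [Set.uIcc_of_le (by linarith)] at hv
      congr 1
      unfold hat
      rw [abs_of_nonneg (by linarith [hv.1]), max_eq_left (by linarith [hv.2])]
    rw [e1, intervalIntegral.integral_mul_deriv_eq_deriv_mul (u := fun v => ε - (v - c))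
      (u' := fun _ => -1) (v := H) (v' := h)]
    · simp
    · intro x _
      exact ((hasDerivAt_id x).sub_const c).const_sub ε
    · intro x _
      exact hHd x
    · exact continuous_const.intervalIntegrable _ _
    · exact hc.intervalIntegrable _ _
  rw [hL, hR, ← intervalIntegral.integral_add_adjacent_intervals (hI (c - ε) c) (hI c (c + ε)),
    hR1, hR2]
  ring

/-- the mean of `φ` over the pairs -/
noncomputable def SS {u : ℕ → ℝ} (hu : Sq u) (N : ℕ) (φ : ℝ → ℝ) : ℝ :=
  (1 / N : ℝ) * ∑ p ∈ PP hu N, φ (u p.1 - u p.2)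

theorem hat_good {u : ℕ → ℝ} (hu : Sq u) {I : Type} {l : Filter I} {N : I → ℕ}
    (hN : Tendsto N l atTop) {h : ℝ → ℝ} (hc : Continuous h)
    (hyp : ∀ a b : Fin 2 → ℝ, Tendsto (fun j => corr u 2 (N j) a b) l
      (𝓝 (∫ x in Set.Icc a b, h (x 0 - x 1)))) (c ε : ℝ) (he : 0 < ε) :
    Tendsto (fun j => SS hu (N j) (hat ε c)) l (𝓝 (∫ v, hat ε c v * h v)) := by
  obtain ⟨m, hm⟩ := exists_nat_ge (|c| + 2 * ε)
  obtain ⟨C, hC0, hC⟩ := iy_card hu
  have h1 := hyp ![c, 0] ![c + ε, ε]
  rw [box_int h hc c ε he] at h1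
  set K : ℝ := ε * (((2 * m : ℕ) + 1) * C) ^ 2 with hK
  have h2 : Tendsto (fun j => (1 / N j : ℝ) * (ε * ((PP hu m).card : ℝ)) +
      K * (Real.log (N j + m + 3) ^ 2 * (1 / N j : ℝ))) l (𝓝 0) := by
    have a1 := (tendsto_one_div_atTop_nhds_zero_nat.comp hN).mul_const
      (ε * ((PP hu m).card : ℝ))
    have a2 := ((log_tend m).comp hN).const_mul K
    have a3 := a1.add a2
    rw [zero_mul, mul_zero, add_zero] at a3
    exact a3
  have h3 : Tendsto (fun j => corr u 2 (N j) ![c, 0] ![c + ε, ε] - SS hu (N j) (hat ε c)) l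
      (𝓝 0) := by
    refine squeeze_zero_norm' ?_ h2
    filter_upwards [hN.eventually_ge_atTop (m + 1)] with j hj
    have hNpos : (0:ℝ) < N j := by
      have : 0 < N j := by omega
      exact_mod_cast this
    have hNm : (m : ℝ) ≤ N j := by
      have : m ≤ N j := by omega
      exact_mod_cast this
    rw [corr_eq hu (N j) c ε m (by linarith [le_abs_self c]) (by linarith [abs_nonneg c]), SS,
      ← mul_sub, norm_mul, Real.norm_eq_abs, Real.norm_eq_abs, abs_of_pos (by positivity)]
    have b1 := diff_le hu (N j) c ε he m hm (by omega)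
    have b2 := hC ((N j : ℝ) - m) (by linarith) (2 * m)
    have b3 : (N j : ℝ) - m + ((2 * m : ℕ) : ℝ) + 3 = N j + m + 3 := by
      push_cast
      ring
    rw [b3] at b2
    have b4 : ((iy hu ((N j : ℝ) - m) ((N j : ℝ) - m + (2 * m : ℕ))).card : ℝ) ^ 2 ≤
        ((((2 * m : ℕ) : ℝ) + 1) * (C * Real.log (N j + m + 3))) ^ 2 :=
      pow_le_pow_left₀ (Nat.cast_nonneg _) b2 2
    have b5 := mul_le_mul_of_nonneg_left b4 he.le
    have b6 : |∑ p ∈ PP hu ((N j : ℝ) + m), G (N j) c ε (u p.1) (u p.2) -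
        ∑ p ∈ PP hu (N j), hat ε c (u p.1 - u p.2)| ≤ ε * ((PP hu m).card : ℝ) +
        ε * ((((2 * m : ℕ) : ℝ) + 1) * (C * Real.log (N j + m + 3))) ^ 2 := by linarith
    refine (mul_le_mul_of_nonneg_left b6 (by positivity)).trans (le_of_eq ?_)
    rw [hK]
    ring
  have h4 := h1.sub h3
  rw [sub_zero] at h4
  refine h4.congr fun j => ?_
  ring

theorem approx {u : ℕ → ℝ} (hu : Sq u) {I : Type} {l : Filter I} {N : I → ℕ}
    {h f ψ : ℝ → ℝ} (h0 : ∀ v, 0 ≤ h v) (hf : Integrable fun v => f v * h v)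
    (hψi : Integrable fun v => ψ v * h v)
    (hψ : Tendsto (fun j => SS hu (N j) ψ) l (𝓝 (∫ v, ψ v * h v)))
    (happ : ∀ δ > 0, ∃ φ : ℝ → ℝ, (Integrable fun v => φ v * h v) ∧
      Tendsto (fun j => SS hu (N j) φ) l (𝓝 (∫ v, φ v * h v)) ∧
      ∀ v, |f v - φ v| ≤ δ * ψ v) :
    Tendsto (fun j => SS hu (N j) f) l (𝓝 (∫ v, f v * h v)) := by
  rw [Metric.tendsto_nhds]
  intro η hη
  set B : ℝ := |∫ v, ψ v * h v| + 1 with hB
  have hBpos : 0 < B := by positivity
  set δ : ℝ := η / (2 * B + 2) with hδ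
  have hδpos : 0 < δ := by positivity
  obtain ⟨φ, hφi, hφ, hφb⟩ := happ δ hδpos
  have e1 : ∀ᶠ j in l, SS hu (N j) ψ < B := by
    refine hψ.eventually (gt_mem_nhds ?_)
    have := le_abs_self (∫ v, ψ v * h v)
    linarith
  have e2 : ∀ᶠ j in l, dist (SS hu (N j) φ) (∫ v, φ v * h v) < δ :=
    (Metric.tendsto_nhds.1 hφ) δ hδpos
  have e3 : |(∫ v, f v * h v) - ∫ v, φ v * h v| ≤ δ * B := by
    rw [← integral_sub hf hφi]
    have : ∀ v, ‖f v * h v - φ v * h v‖ ≤ δ * (ψ v * h v) := by
      intro v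
      rw [← sub_mul, norm_mul, Real.norm_eq_abs, Real.norm_eq_abs, abs_of_nonneg (h0 v),
        ← mul_assoc]
      exact mul_le_mul_of_nonneg_right (hφb v) (h0 v)
    have h1 := norm_integral_le_of_norm_le (hψi.const_mul δ) (Eventually.of_forall this)
    rw [Real.norm_eq_abs] at h1
    refine h1.trans ?_
    rw [integral_const_mul]
    refine mul_le_mul_of_nonneg_left ?_ hδpos.le
    have := le_abs_self (∫ v, ψ v * h v)
    linarith
  filter_upwards [e1, e2] with j hj1 hj2
  have e4 : |SS hu (N j) f - SS hu (N j) φ| ≤ δ * B := by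
    have h1 : |SS hu (N j) f - SS hu (N j) φ| ≤ δ * SS hu (N j) ψ := by
      unfold SS
      rw [← mul_sub, ← Finset.sum_sub_distrib, abs_mul, abs_of_nonneg (by positivity),
        mul_left_comm, Finset.mul_sum _ _ δ]
      refine mul_le_mul_of_nonneg_left ?_ (by positivity)
      exact (Finset.abs_sum_le_sum_abs _ _).trans (Finset.sum_le_sum fun p _ => hφb _)
    exact h1.trans (mul_le_mul_of_nonneg_left hj1.le hδpos.le)
  rw [Real.dist_eq] at hj2 ⊢
  have e5 : δ * (2 * B + 2) = η := by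
    rw [hδ]
    field_simp
  have e6 : SS hu (N j) f - ∫ v, f v * h v = (SS hu (N j) f - SS hu (N j) φ) +
      (SS hu (N j) φ - ∫ v, φ v * h v) - ((∫ v, f v * h v) - ∫ v, φ v * h v) := by ring
  rw [e6]
  have e7 := abs_sub ((SS hu (N j) f - SS hu (N j) φ) + (SS hu (N j) φ - ∫ v, φ v * h v))
    ((∫ v, f v * h v) - ∫ v, φ v * h v)
  have e8 := abs_add_le (SS hu (N j) f - SS hu (N j) φ) (SS hu (N j) φ - ∫ v, φ v * h v)
  nlinarith

/-- the partition of unity -/
theorem hat_sum (ε : ℝ) (he : 0 < ε) (M : ℕ) (v : ℝ) (hv : |v| ≤ M * ε) :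
    ∑ k ∈ Finset.range (2 * M + 1), hat ε (((k : ℝ) - M) * ε) v = ε := by
  have hv' := abs_le.1 hv
  set g : ℕ → ℝ := fun k => - max 0 (min ε (v + ((M : ℝ) - k + 1) * ε)) with hg
  have h1 : ∀ k : ℕ, hat ε (((k : ℝ) - M) * ε) v = g (k + 1) - g k := by
    intro k
    simp only [hg]
    unfold hat
    push_cast
    have e1 : v + ((M : ℝ) - (k + 1) + 1) * ε = v - ((k : ℝ) - M) * ε := by ring
    have e2 : v + ((M : ℝ) - k + 1) * ε = v - ((k : ℝ) - M) * ε + ε := by ring
    rw [e1, e2]
    set t := v - ((k : ℝ) - M) * ε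
    rcases le_total t (-ε) with h | h
    · rw [abs_of_nonpos (by linarith), max_eq_right (by linarith),
        min_eq_right (show t + ε ≤ ε by linarith), min_eq_right (show t ≤ ε by linarith),
        max_eq_left (show t ≤ 0 by linarith), max_eq_left (show t + ε ≤ 0 by linarith)]
      ring
    · rcases le_total t 0 with h' | h'
      · rw [abs_of_nonpos h', max_eq_left (by linarith),
          min_eq_right (show t + ε ≤ ε by linarith), min_eq_right (show t ≤ ε by linarith),
          max_eq_left (show t ≤ 0 by linarith), max_eq_right (show 0 ≤ t + ε by linarith)]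
        ring
      · rcases le_total t ε with h'' | h''
        · rw [abs_of_nonneg h', max_eq_left (by linarith),
            min_eq_left (show ε ≤ t + ε by linarith), min_eq_right h'',
            max_eq_right h', max_eq_right he.le]
          ring
        · rw [abs_of_nonneg h', max_eq_right (by linarith),
            min_eq_left (show ε ≤ t + ε by linarith), min_eq_left h'', max_eq_right he.le]
          ring
  simp only [h1]
  rw [Finset.sum_range_sub]
  simp only [hg]
  push_cast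
  have e3 : v + ((M : ℝ) - (2 * M + 1) + 1) * ε = v - M * ε := by ring
  have e4 : v + ((M : ℝ) - 0 + 1) * ε = v + M * ε + ε := by ring
  rw [e3, e4, min_eq_right (show v - M * ε ≤ ε by linarith [hv'.2]),
    max_eq_left (show v - M * ε ≤ 0 by linarith [hv'.2]),
    min_eq_left (show ε ≤ v + M * ε + ε by linarith [hv'.1]), max_eq_right he.le]
  ring

theorem hat_cont (ε c : ℝ) : Continuous (hat ε c) := by
  unfold hat
  fun_prop

theorem hat_int {h : ℝ → ℝ} (hc : Continuous h) (ε c : ℝ) :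
    Integrable fun v => hat ε c v * h v := by
  refine ((hat_cont ε c).mul hc).integrable_of_hasCompactSupport ?_
  refine HasCompactSupport.mul_right ?_
  refine HasCompactSupport.intro (isCompact_Icc (a := c - ε) (b := c + ε)) fun v hv => ?_
  apply hat_zero
  rw [Set.mem_Icc, not_and_or] at hv
  push Not at hv
  rcases hv with hv | hv
  · exact le_trans (by linarith) (neg_le_abs _)
  · exact le_trans (by linarith) (le_abs_self _)

/-- linear combinations of hat functions -/
theorem comb_good {u : ℕ → ℝ} (hu : Sq u) {I : Type} {l : Filter I} {N : I → ℕ}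
    (hN : Tendsto N l atTop) {h : ℝ → ℝ} (hc : Continuous h)
    (hyp : ∀ a b : Fin 2 → ℝ, Tendsto (fun j => corr u 2 (N j) a b) l
      (𝓝 (∫ x in Set.Icc a b, h (x 0 - x 1)))) (ε : ℝ) (he : 0 < ε) (n : ℕ) (w c : ℕ → ℝ) :
    (Integrable fun v => (∑ k ∈ Finset.range n, w k * hat ε (c k) v) * h v) ∧
    Tendsto (fun j => SS hu (N j) fun v => ∑ k ∈ Finset.range n, w k * hat ε (c k) v) l
      (𝓝 (∫ v, (∑ k ∈ Finset.range n, w k * hat ε (c k) v) * h v)) := by
  have e1 : (fun v => (∑ k ∈ Finset.range n, w k * hat ε (c k) v) * h v) =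
      fun v => ∑ k ∈ Finset.range n, w k * (hat ε (c k) v * h v) := by
    funext v
    rw [Finset.sum_mul]
    exact Finset.sum_congr rfl fun k _ => by ring
  constructor
  · rw [e1]
    exact integrable_finsetSum _ fun k _ => (hat_int hc ε (c k)).const_mul (w k)
  · rw [e1, integral_finsetSum _ fun k _ => (hat_int hc ε (c k)).const_mul (w k)]
    simp only [integral_const_mul]
    have h1 := tendsto_finsetSum (Finset.range n) fun k (_ : k ∈ Finset.range n) =>
      (hat_good hu hN hc hyp (c k) ε he).const_mul (w k)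
    refine h1.congr fun j => ?_
    unfold SS
    rw [Finset.sum_comm, Finset.mul_sum]
    refine Finset.sum_congr rfl fun k _ => ?_
    rw [Finset.mul_sum, Finset.mul_sum, Finset.mul_sum]
    exact Finset.sum_congr rfl fun p _ => by ring

theorem t_ML : S_ML := by
  intro u hu I l N hN h hc _ h0 hyp f hfc hfs
  obtain ⟨K, hK, hfK⟩ := hfs.exists_pos_le_norm
  obtain ⟨M1, hM1⟩ := exists_nat_ge (K + 1)
  have hunif := hfs.uniformContinuous_of_continuous hfc
  have hmain : Tendsto (fun j => SS hu (N j) f) l (𝓝 (∫ v, f v * h v)) := by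
    have hψ := comb_good hu hN hc hyp 1 one_pos (2 * M1 + 1) (fun _ => 1)
      (fun k => ((k : ℝ) - M1) * 1)
    refine approx hu h0 ((hfc.mul hc).integrable_of_hasCompactSupport hfs.mul_right)
      hψ.1 hψ.2 ?_
    intro δ hδ
    obtain ⟨η, hη, hfη⟩ := Metric.uniformContinuous_iff.1 hunif δ hδ
    set ε : ℝ := min η 1 with hε
    have he : 0 < ε := lt_min hη one_pos
    have he1 : ε ≤ 1 := min_le_right _ _
    have heη : ε ≤ η := min_le_left _ _
    obtain ⟨M, hM⟩ := exists_nat_ge ((K + 1) / ε)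
    rw [div_le_iff₀ he] at hM
    refine ⟨fun v => ∑ k ∈ Finset.range (2 * M + 1), (f (((k : ℝ) - M) * ε) / ε) *
      hat ε (((k : ℝ) - M) * ε) v,
      (comb_good hu hN hc hyp ε he (2 * M + 1) (fun k => f (((k : ℝ) - M) * ε) / ε)
        (fun k => ((k : ℝ) - M) * ε)).1,
      (comb_good hu hN hc hyp ε he (2 * M + 1) (fun k => f (((k : ℝ) - M) * ε) / ε)
        (fun k => ((k : ℝ) - M) * ε)).2, ?_⟩
    intro v
    have hψ0 : 0 ≤ ∑ k ∈ Finset.range (2 * M1 + 1), (1:ℝ) * hat 1 (((k : ℝ) - M1) * 1) v :=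
      Finset.sum_nonneg fun k _ => by
        rw [one_mul]
        exact hat_nonneg _ _ _
    rcases le_or_gt |v| (K + 1) with hv | hv
    · have a1 : ∑ k ∈ Finset.range (2 * M1 + 1), (1:ℝ) * hat 1 (((k : ℝ) - M1) * 1) v = 1 := by
        simp only [one_mul]
        exact hat_sum 1 one_pos M1 v (by linarith)
      have a2 := hat_sum ε he M v (by linarith)
      simp only
      rw [a1, mul_one]
      have a3 : f v - ∑ k ∈ Finset.range (2 * M + 1), (f (((k : ℝ) - M) * ε) / ε) *
          hat ε (((k : ℝ) - M) * ε) v = ∑ k ∈ Finset.range (2 * M + 1),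
            ((f v - f (((k : ℝ) - M) * ε)) / ε) * hat ε (((k : ℝ) - M) * ε) v := by
        have a4 : f v = ∑ k ∈ Finset.range (2 * M + 1), (f v / ε) *
            hat ε (((k : ℝ) - M) * ε) v := by
          rw [← Finset.mul_sum, a2]
          field_simp
        conv_lhs => rw [a4]
        rw [← Finset.sum_sub_distrib]
        exact Finset.sum_congr rfl fun k _ => by ring
      rw [a3]
      refine (Finset.abs_sum_le_sum_abs _ _).trans ?_
      have a5 : ∀ k ∈ Finset.range (2 * M + 1),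
          |((f v - f (((k : ℝ) - M) * ε)) / ε) * hat ε (((k : ℝ) - M) * ε) v| ≤
            (δ / ε) * hat ε (((k : ℝ) - M) * ε) v := by
        intro k _
        rw [abs_mul, abs_of_nonneg (hat_nonneg _ _ _)]
        rcases lt_or_ge |v - ((k : ℝ) - M) * ε| ε with h' | h'
        · refine mul_le_mul_of_nonneg_right ?_ (hat_nonneg _ _ _)
          rw [abs_div, abs_of_pos he]
          refine div_le_div_of_nonneg_right ?_ he.le
          have := hfη (a := v) (b := ((k : ℝ) - M) * ε) (by
            rw [Real.dist_eq]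
            linarith)
          rw [Real.dist_eq] at this
          exact this.le
        · rw [hat_zero _ _ _ h', mul_zero, mul_zero]
      refine (Finset.sum_le_sum a5).trans ?_
      rw [← Finset.mul_sum, a2, div_mul_cancel₀ _ he.ne']
    · have b1 : f v = 0 := hfK v (by
        rw [Real.norm_eq_abs]
        linarith)
      have b2 : ∑ k ∈ Finset.range (2 * M + 1), (f (((k : ℝ) - M) * ε) / ε) *
          hat ε (((k : ℝ) - M) * ε) v = 0 := by
        refine Finset.sum_eq_zero fun k _ => ?_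
        rcases lt_or_ge |v - ((k : ℝ) - M) * ε| ε with h' | h'
        · have : f (((k : ℝ) - M) * ε) = 0 := by
            apply hfK
            rw [Real.norm_eq_abs]
            have := abs_sub_abs_le_abs_sub v (((k : ℝ) - M) * ε)
            linarith
          rw [this, zero_div, zero_mul]
        · rw [hat_zero _ _ _ h', mul_zero]
      simp only
      rw [b1, b2, sub_zero, abs_zero]
      exact mul_nonneg hδ.le hψ0
  refine hmain.congr fun j => ?_
  unfold SS
  congr 1
  have hset : {p : ℕ × ℕ | 1 ≤ p.1 ∧ 1 ≤ p.2 ∧ p.1 ≠ p.2 ∧ u p.1 ≤ N j ∧ u p.2 ≤ N j} =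
      ((PP hu (N j) : Finset (ℕ × ℕ)) : Set (ℕ × ℕ)) := by
    ext p
    simp only [Finset.mem_coe, mem_PP, Set.mem_ofPred_eq]
    tauto
  rw [hset, finsum_mem_coe_finset]

end Pool.Agent.Y948.SRML
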